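import Pool.Agent.H581R3.Core.Defs

/-!
First column hook lengths (bead positions) and the inequality `t * c_t(n) ≤ p(n + t)`.
-/

set_option autoImplicit false

namespace Pool.Agent.H581R3.Core

open Finset

/-- Bead positions. -/
def beta (N : ℕ) (f : ℕ → ℕ) (i : ℕ) : ℕ := f i + (N - 1 - i)

/-- The set of bead positions. -/
def beads (N : ℕ) (f : ℕ → ℕ) : Finset ℕ := (range N).image (beta N f)

theorem beta_lt {N : ℕ} {f : ℕ → ℕ} (hf : Antitone f) {i j : ℕ} (hij : i < j) (hj : j < N) :
    beta N f j < beta N f i := by
  have := hf hij.le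
  unfold beta
  omega

theorem beta_injOn {N : ℕ} {f : ℕ → ℕ} (hf : Antitone f) :
    Set.InjOn (beta N f) (range N : Set ℕ) := by
  intro a ha b hb hab
  rw [mem_coe, mem_range] at ha hb
  rcases lt_trichotomy a b with h | h | h
  · have := beta_lt hf h hb; omega
  · exact h
  · have := beta_lt hf h ha; omega

theorem card_beads {N : ℕ} {f : ℕ → ℕ} (hf : Antitone f) : (beads N f).card = N := by
  unfold beads
  rw [card_image_of_injOn (beta_injOn hf), card_range]

theorem sum_beads {n N : ℕ} {f : ℕ → ℕ} (hf : IsPartition n f) (hN : n ≤ N) :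
    ∑ x ∈ beads N f, x = n + ∑ i ∈ range N, i := by
  unfold beads
  rw [sum_image (beta_injOn hf.1)]
  unfold beta
  rw [sum_add_distrib, hf.sum_range hN]
  congr 1
  exact sum_range_reflect (fun i => i) N

/-- In a core, beads can be pushed down. -/
theorem push_down {n N t : ℕ} {f : ℕ → ℕ} (hf : IsPartition n f) (hN : n ≤ N) (hc : IsCore t f)
    {x : ℕ} (hx : x ∈ beads N f) (htx : t ≤ x) : x - t ∈ beads N f := by
  classical
  by_contra hg
  unfold beads at hx
  rw [mem_image] at hx
  obtain ⟨i, hi, rfl⟩ := hx
  rw [mem_range] at hi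
  obtain ⟨g, hgdef⟩ : ∃ g, g = beta N f i - t := ⟨_, rfl⟩
  rw [← hgdef] at hg
  have hne : ∀ s, s < N → beta N f s ≠ g := by
    intro s hs h
    apply hg
    unfold beads
    rw [mem_image]
    exact ⟨s, mem_range.mpr hs, h⟩
  have hex : ∃ s, N ≤ s ∨ beta N f s < g := ⟨N, Or.inl le_rfl⟩
  obtain ⟨m, hm⟩ : ∃ m, m = Nat.find hex := ⟨_, rfl⟩
  have hmP : N ≤ m ∨ beta N f m < g := by rw [hm]; exact Nat.find_spec hex
  have hmle : m ≤ N := by rw [hm]; exact Nat.find_le (Or.inl le_rfl)
  have hlt : ∀ s, s < m → s < N ∧ g < beta N f s := by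
    intro s hs
    have h1 : ¬ (N ≤ s ∨ beta N f s < g) := Nat.find_min hex (by rw [← hm]; exact hs)
    push Not at h1
    have h2 := hne s h1.1
    exact ⟨h1.1, by omega⟩
  have him : i < m := by
    by_contra h
    have h1 : m < N := by omega
    have h2 : beta N f m < g := hmP.resolve_left (by omega)
    have h3 : beta N f i ≤ beta N f m := by
      rcases Nat.eq_or_lt_of_le (show m ≤ i by omega) with h4 | h4
      · rw [h4]
      · exact (beta_lt hf.1 h4 hi).le
    omega
  have hgN : N - m ≤ g := by
    rcases hmP with h | h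
    · omega
    · unfold beta at h
      by_cases h' : m < N
      · omega
      · omega
  have hj1 : ∀ s, s < m → g - (N - m) + 1 ≤ f s := by
    intro s hs
    have h1 := (hlt (m - 1) (by omega)).2
    have h2 := hf.1 (show s ≤ m - 1 by omega)
    unfold beta at h1
    omega
  have hj2 : ∀ s, m ≤ s → f s < g - (N - m) + 1 := by
    intro s hs
    rcases hmP with h | h
    · rw [hf.2.1 s (by omega)]; omega
    · by_cases h' : m < N
      · have h2 := hf.1 hs
        unfold beta at h
        omega
      · rw [hf.2.1 s (by omega)]; omega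
  have hset : {s : ℕ | i ≤ s ∧ g - (N - m) + 1 ≤ f s} = (Finset.Ico i m : Finset ℕ) := by
    ext s
    simp only [Set.mem_ofPred_eq, coe_Ico, Set.mem_Ico]
    constructor
    · rintro ⟨h1, h2⟩
      refine ⟨h1, ?_⟩
      by_contra h3
      have := hj2 s (by omega)
      omega
    · rintro ⟨h1, h2⟩
      exact ⟨h1, hj1 s h2⟩
  have hhook : hook f i (g - (N - m) + 1) = t := by
    unfold hook
    rw [hset, Set.ncard_coe_finset, Nat.card_Ico]
    have h1 := hj1 i him
    unfold beta at hgdef htx
    omega
  exact hc i (g - (N - m) + 1) (by omega) (hj1 i him) (by rw [hhook])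

/-- Every set of beads comes from a partition. -/
theorem exists_partition {m N : ℕ} (Y : Finset ℕ) (hcard : Y.card = N)
    (hsum : ∑ y ∈ Y, y = m + ∑ i ∈ range N, i) : ∃ g : ℕ → ℕ, IsPartition m g ∧ beads N g = Y := by
  classical
  let e := Y.orderEmbOfFin hcard
  let x : ℕ → ℕ := fun k => if h : k < N then e ⟨k, h⟩ else 0
  have hx : ∀ k (h : k < N), x k = e ⟨k, h⟩ := fun k h => by simp [x, h]
  have hstep : ∀ k l, k ≤ l → l < N → x k + (l - k) ≤ x l := by
    intro k l hkl
    induction l, hkl using Nat.le_induction with
    | base => intro _; simp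
    | succ l hkl ih =>
      intro hl
      have h1 := ih (by omega)
      have h2 : x l < x (l + 1) := by
        rw [hx l (by omega), hx (l + 1) hl]
        apply e.strictMono
        simp
      omega
  have hge : ∀ k, k < N → k ≤ x k := by
    intro k hk
    have := hstep 0 k (Nat.zero_le _) hk
    omega
  let g : ℕ → ℕ := fun i => if i < N then x (N - 1 - i) - (N - 1 - i) else 0
  have hg : ∀ i, i < N → g i = x (N - 1 - i) - (N - 1 - i) := fun i hi => by simp [g, hi]
  have hanti : Antitone g := by
    intro a b hab
    by_cases hb : b < N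
    · rw [hg b hb, hg a (by omega)]
      have h1 := hstep (N - 1 - b) (N - 1 - a) (by omega) (by omega)
      have h2 := hge (N - 1 - b) (by omega)
      omega
    · have : g b = 0 := by simp [g, hb]
      omega
  have hbeta : ∀ i, i < N → beta N g i = x (N - 1 - i) := by
    intro i hi
    unfold beta
    rw [hg i hi]
    have := hge (N - 1 - i) (by omega)
    omega
  have hbeads : beads N g = Y := by
    ext y
    unfold beads
    rw [mem_image]
    constructor
    · rintro ⟨i, hi, rfl⟩
      rw [mem_range] at hi
      rw [hbeta i hi, hx _ (by omega)]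
      exact Y.orderEmbOfFin_mem hcard _
    · intro hy
      have h1 : y ∈ Set.range e := by
        rw [Finset.range_orderEmbOfFin]
        exact hy
      obtain ⟨⟨k, hk⟩, rfl⟩ := h1
      refine ⟨N - 1 - k, mem_range.mpr (by omega), ?_⟩
      rw [hbeta _ (by omega)]
      have : N - 1 - (N - 1 - k) = k := by omega
      rw [this, hx k hk]
  refine ⟨g, isPartition_of_sum (N := N) hanti (fun i hi => by simp [g]; omega) ?_, hbeads⟩
  have h1 : ∑ y ∈ beads N g, y = ∑ i ∈ range N, g i + ∑ i ∈ range N, i := by
    unfold beads
    rw [sum_image (beta_injOn hanti)]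
    unfold beta
    rw [sum_add_distrib]
    congr 1
    exact sum_range_reflect (fun i => i) N
  rw [hbeads, hsum] at h1
  omega

/-- Adding a rim hook of length `t` to a `t`-core. -/
theorem cores_le (t n : ℕ) (ht : 0 < t) : t * numCores t n ≤ numPartitions (n + t) := by
  classical
  obtain ⟨N, hN⟩ : ∃ N, N = n + t := ⟨_, rfl⟩
  have hr : ∀ f, IsPartition n f → ∀ r, r < t → r ∈ beads N f := by
    intro f hf r hrt
    unfold beads
    rw [mem_image]
    refine ⟨N - 1 - r, mem_range.mpr (by omega), ?_⟩
    unfold beta
    rw [hf.2.1 _ (by omega)]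
    omega
  -- the top bead on runner `r`
  let top : (ℕ → ℕ) → ℕ → ℕ := fun f r => ((beads N f).filter fun x => x % t = r).sup id
  have htop : ∀ f, IsPartition n f → ∀ r, r < t → top f r ∈ beads N f ∧ top f r % t = r ∧
      top f r + t ∉ beads N f := by
    intro f hf r hrt
    have hne : ((beads N f).filter fun x => x % t = r).Nonempty :=
      ⟨r, mem_filter.mpr ⟨hr f hf r hrt, Nat.mod_eq_of_lt hrt⟩⟩
    have h1 : top f r ∈ (beads N f).filter fun x => x % t = r := by
      obtain ⟨y, hy, hy'⟩ := exists_mem_eq_sup _ hne (id : ℕ → ℕ)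
      change ((beads N f).filter fun x => x % t = r).sup id ∈ _
      rw [hy']
      exact hy
    rw [mem_filter] at h1
    refine ⟨h1.1, h1.2, fun h2 => ?_⟩
    have h3 : top f r + t ≤ top f r := by
      apply le_sup (f := id) (s := (beads N f).filter fun x => x % t = r)
      rw [mem_filter]
      exact ⟨h2, by rw [Nat.add_mod_right]; exact h1.2⟩
    omega
  let mv : (ℕ → ℕ) → ℕ → Finset ℕ := fun f r => insert (top f r + t) ((beads N f).erase (top f r))
  let Z : Set (Finset ℕ) := {Y | Y.card = N ∧ ∑ y ∈ Y, y = (n + t) + ∑ i ∈ range N, i}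
  have hZsub : Z ⊆ (beads N) '' {f | IsPartition (n + t) f} := by
    rintro Y ⟨h1, h2⟩
    obtain ⟨g, hg1, hg2⟩ := exists_partition Y h1 h2
    exact ⟨g, hg1, hg2⟩
  have hZfin : Z.Finite := ((finite_partitions (n + t)).image _).subset hZsub
  have hZcard : Z.ncard ≤ numPartitions (n + t) :=
    (Set.ncard_le_ncard hZsub ((finite_partitions (n + t)).image _)).trans
      (Set.ncard_image_le (finite_partitions (n + t)))
  let D : Set ((ℕ → ℕ) × ℕ) := {f | IsPartition n f ∧ IsCore t f} ×ˢ (Set.Iio t)
  have hD : D.ncard = numCores t n * t := by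
    rw [Set.ncard_prod]
    congr 1
    have : (Set.Iio t : Set ℕ) = (Finset.range t : Finset ℕ) := by ext; simp
    rw [this, Set.ncard_coe_finset, card_range]
  have hmap : ∀ p ∈ D, mv p.1 p.2 ∈ Z := by
    rintro ⟨f, r⟩ ⟨⟨hf, hc⟩, hrt⟩
    change IsPartition n f at hf
    change IsCore t f at hc
    simp only [Set.mem_Iio] at hrt
    obtain ⟨h1, h2, h3⟩ := htop f hf r hrt
    have h4 : top f r + t ∉ (beads N f).erase (top f r) := fun h => h3 (mem_of_mem_erase h)
    refine ⟨?_, ?_⟩
    · change (insert (top f r + t) ((beads N f).erase (top f r))).card = N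
      rw [card_insert_of_notMem h4, card_erase_of_mem h1, card_beads hf.1]
      omega
    · change ∑ y ∈ insert (top f r + t) ((beads N f).erase (top f r)), y = _
      rw [sum_insert h4]
      have h5 : top f r + ∑ x ∈ (beads N f).erase (top f r), x = ∑ x ∈ beads N f, x :=
        add_sum_erase (beads N f) (fun x => x) h1
      have h6 := sum_beads hf (show n ≤ N by omega)
      omega
  have hinj : Set.InjOn (fun p : (ℕ → ℕ) × ℕ => mv p.1 p.2) D := by
    -- the moved bead is characterised
    have hchar : ∀ f r, IsPartition n f → IsCore t f → r < t → ∀ z, z ∈ mv f r → t ≤ z →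
        z - t ∉ mv f r → z = top f r + t := by
      intro f r hf hc hrt z hz htz hzt
      by_contra hne
      obtain ⟨h1, h2, h3⟩ := htop f hf r hrt
      have h4 : z ∈ (beads N f).erase (top f r) := by
        rcases mem_insert.mp hz with h | h
        · exact absurd h hne
        · exact h
      have h5 : z - t ∈ beads N f := push_down hf (show n ≤ N by omega) hc (mem_of_mem_erase h4) htz
      apply hzt
      refine mem_insert_of_mem (mem_erase.mpr ⟨?_, h5⟩)
      intro h6
      apply hne
      omega
    have hmem : ∀ f r, IsPartition n f → r < t → top f r + t ∈ mv f r ∧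
        (top f r + t) - t ∉ mv f r := by
      intro f r hf hrt
      refine ⟨mem_insert_self _ _, ?_⟩
      rw [Nat.add_sub_cancel]
      intro h
      rcases mem_insert.mp h with h | h
      · omega
      · exact (mem_erase.mp h).1 rfl
    have hrec : ∀ f r, IsPartition n f → r < t →
        beads N f = insert (top f r) ((mv f r).erase (top f r + t)) := by
      intro f r hf hrt
      obtain ⟨h1, h2, h3⟩ := htop f hf r hrt
      have h4 : top f r + t ∉ (beads N f).erase (top f r) := fun h => h3 (mem_of_mem_erase h)
      change _ = insert (top f r) ((insert (top f r + t) ((beads N f).erase (top f r))).erase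
        (top f r + t))
      rw [erase_insert h4, insert_erase h1]
    have hbinj : ∀ f g, IsPartition n f → IsPartition n g → beads N f = beads N g → f = g := by
      intro f g hf hg hfg
      -- strong comparison of the decreasing enumerations
      have key : ∀ i, i < N → (∀ k, k < i → f k = g k) → f i = g i := by
        intro i hi hk
        have aux : ∀ f g : ℕ → ℕ, Antitone f → Antitone g → beads N f = beads N g →
            (∀ k, k < i → f k = g k) → f i ≤ g i := by
          intro f g hf hg hfg hk
          have h1 : beta N f i ∈ beads N g := by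
            rw [← hfg]
            unfold beads
            exact mem_image_of_mem _ (mem_range.mpr hi)
          unfold beads at h1
          rw [mem_image] at h1
          obtain ⟨k, hkN, hk'⟩ := h1
          rw [mem_range] at hkN
          have h2 : i ≤ k := by
            by_contra h
            push Not at h
            have h3 := beta_lt hf h hi
            have h4 : beta N g k = beta N f k := by
              unfold beta; rw [hk k h]
            omega
          have h3 : beta N g k ≤ beta N g i := by
            rcases Nat.eq_or_lt_of_le h2 with h4 | h4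
            · rw [h4]
            · exact (beta_lt hg h4 hkN).le
          unfold beta at hk' h3
          omega
        exact le_antisymm (aux f g hf.1 hg.1 hfg hk)
          (aux g f hg.1 hf.1 hfg.symm (fun k h => (hk k h).symm))
      funext i
      by_cases hi : i < N
      · induction i using Nat.strong_induction_on with
        | _ i ih => exact key i hi fun k hk => ih k hk (by omega)
      · rw [hf.2.1 i (by omega), hg.2.1 i (by omega)]
    rintro ⟨f, r⟩ ⟨⟨hf, hcf⟩, hrt⟩ ⟨g, s⟩ ⟨⟨hg, hcg⟩, hst⟩ heq
    simp only [Set.mem_Iio] at hrt hst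
    have heq' : mv f r = mv g s := heq
    obtain ⟨h1, h2⟩ := hmem f r hf hrt
    have h3 : top f r + t = top g s + t :=
      hchar g s hg hcg hst _ (heq' ▸ h1) (by omega) (by rw [← heq']; exact h2)
    have h4 : top f r = top g s := by omega
    have h5 : r = s := by
      rw [← (htop f hf r hrt).2.1, ← (htop g hg s hst).2.1, h4]
    have h6 : beads N f = beads N g := by
      rw [hrec f r hf hrt, hrec g s hg hst, heq', h4]
    rw [hbinj f g hf hg h6, h5]
  have := Set.ncard_le_ncard_of_injOn _ hmap hinj hZfin
  rw [hD] at this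
  rw [mul_comm]
  exact this.trans hZcard

end Pool.Agent.H581R3.Core
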