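import Pool.Agent.H581R3.Core.Growth

/-!
The density of type I zeros along good values of `n`.
-/

set_option autoImplicit false

namespace Pool.Agent.H581R3.Core

open Finset Filter Topology

theorem finite_first (n t : ℕ) : {f : ℕ → ℕ | IsPartition n f ∧ f 0 = t}.Finite :=
  (finite_partitions n).subset fun _ hf => hf.1

theorem finite_cores (t n : ℕ) : {f : ℕ → ℕ | IsPartition n f ∧ IsCore t f}.Finite :=
  (finite_partitions n).subset fun _ hf => hf.1

theorem numCores_le (t n : ℕ) : numCores t n ≤ numPartitions n :=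
  Set.ncard_le_ncard (fun _ hf => hf.1) (finite_partitions n)

/-- The number of partitions with first part `t`. -/
noncomputable def firstCount (n t : ℕ) : ℕ := {f : ℕ → ℕ | IsPartition n f ∧ f 0 = t}.ncard

theorem typeI_le (n : ℕ) : (typeIZeros n).ncard ≤
    ∑ t ∈ range (n + 1), numCores t n * firstCount n t := by
  have h1 : typeIZeros n ⊆ ⋃ t ∈ range (n + 1), ({f : ℕ → ℕ | IsPartition n f ∧ IsCore t f} ×ˢ
      {f : ℕ → ℕ | IsPartition n f ∧ f 0 = t}) := by
    rintro ⟨f, g⟩ ⟨hf, hg, hc⟩
    simp only [Set.mem_iUnion, mem_range, Set.mem_prod, Set.mem_ofPred_eq]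
    exact ⟨g 0, Nat.lt_succ_of_le (hg.le 0), ⟨hf, hc⟩, hg, rfl⟩
  have hfin : (⋃ t ∈ range (n + 1), ({f : ℕ → ℕ | IsPartition n f ∧ IsCore t f} ×ˢ
      {f : ℕ → ℕ | IsPartition n f ∧ f 0 = t})).Finite := by
    apply Set.Finite.biUnion (finite_toSet _)
    intro t _
    exact (finite_cores t n).prod (finite_first n t)
  refine (Set.ncard_le_ncard h1 hfin).trans ?_
  refine (Finset.set_ncard_biUnion_le _ _).trans ?_
  apply sum_le_sum
  intro t _
  rw [Set.ncard_prod]
  exact le_rfl

theorem sum_firstCount (n m : ℕ) : ∑ t ∈ range m, firstCount n t =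
    {f : ℕ → ℕ | IsPartition n f ∧ f 0 < m}.ncard := by
  induction m with
  | zero => simp
  | succ m ih =>
    rw [sum_range_succ, ih]
    unfold firstCount
    rw [← Set.ncard_union_eq ?_ ((finite_partitions n).subset fun _ hf => hf.1)
      (finite_first n m)]
    · congr 1
      ext f
      simp only [Set.mem_union, Set.mem_ofPred_eq]
      constructor
      · rintro (⟨h1, h2⟩ | ⟨h1, h2⟩)
        · exact ⟨h1, by omega⟩
        · exact ⟨h1, by omega⟩
      · rintro ⟨h1, h2⟩
        rcases Nat.lt_or_ge (f 0) m with h | h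
        · exact Or.inl ⟨h1, h⟩
        · exact Or.inr ⟨h1, by omega⟩
    · rw [Set.disjoint_left]
      rintro f ⟨-, h1⟩ ⟨-, h2⟩
      omega

theorem geom_tail (ε y : ℝ) (hε : 0 < ε) (n : ℕ) :
    (∑ t ∈ range n, if y < ε * t then Real.exp (-(ε * t)) else 0) * (1 - Real.exp (-ε)) ≤
      Real.exp (-y) - Real.exp (-(max y (ε * n))) := by
  induction n with
  | zero =>
    rw [range_zero, sum_empty, zero_mul, sub_nonneg]
    apply Real.exp_le_exp.mpr
    have := le_max_left y (ε * (0:ℕ))
    linarith
  | succ n ih =>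
    rw [sum_range_succ, add_mul]
    have h3 : Real.exp (-(ε * ((n + 1 : ℕ) : ℝ))) = Real.exp (-(ε * n)) * Real.exp (-ε) := by
      rw [← Real.exp_add]
      congr 1
      push_cast
      ring
    by_cases hn : y < ε * n
    · rw [if_pos hn]
      have h1 : max y (ε * n) = ε * n := max_eq_right hn.le
      have h2 : max y (ε * ((n + 1 : ℕ) : ℝ)) = ε * ((n + 1 : ℕ) : ℝ) := by
        apply max_eq_right
        push_cast
        nlinarith
      rw [h1] at ih
      rw [h2, h3]
      nlinarith
    · rw [if_neg hn]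
      push Not at hn
      have h1 : max y (ε * n) = y := max_eq_left hn
      rw [h1] at ih
      have h2 : Real.exp (-(max y (ε * ((n + 1 : ℕ) : ℝ)))) ≤ Real.exp (-y) := by
        apply Real.exp_le_exp.mpr
        have := le_max_left y (ε * ((n + 1 : ℕ) : ℝ))
        linarith
      linarith

/-- `exp x / x` is increasing for `x ≥ 1`. -/
theorem exp_div_mono {x y : ℝ} (hx : 1 ≤ x) (hxy : x ≤ y) : Real.exp x / x ≤ Real.exp y / y := by
  rw [div_le_div_iff₀ (by linarith) (by linarith)]
  have h1 : y - x + 1 ≤ Real.exp (y - x) := Real.add_one_le_exp _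
  have h2 : Real.exp y = Real.exp x * Real.exp (y - x) := by
    rw [← Real.exp_add]; congr 1; ring
  rw [h2, mul_assoc]
  apply mul_le_mul_of_nonneg_left _ (Real.exp_pos x).le
  nlinarith

/-- The bound for the density at a good value of `n`. -/
theorem zI_le (n K : ℕ) (hK : 1 ≤ K) (ε M : ℝ) (hε : 0 < ε) (hε1 : ε ≤ 1) (hM : 0 < M)
    (hMε : 1 ≤ Real.log (M / ε))
    (hgood : ∀ k : ℕ, (numPartitions k : ℝ) ≤ numPartitions n * Real.exp (ε * ((k : ℝ) - n))) :
    zI n ≤ ((n : ℝ) + 1) ^ K / (numPartitions n : ℝ) + (Real.exp 1 / K + M / Real.log (M / ε)) +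
      2 / M := by
  have hp : (0:ℝ) < numPartitions n := by exact_mod_cast numPartitions_pos n
  set p : ℝ := (numPartitions n : ℝ) with hpdef
  set y : ℝ := Real.log (M / ε) with hy
  have hy0 : 0 < y := by linarith
  have hexpy : Real.exp y = M / ε := Real.exp_log (by positivity)
  have hK0 : (0:ℝ) < K := by exact_mod_cast hK
  let u : ℕ → ℝ := fun t => (firstCount n t : ℝ) / p
  let v : ℕ → ℝ := fun t => (numCores t n : ℝ) / p
  have hu0 : ∀ t, 0 ≤ u t := fun t => by positivity
  have hv0 : ∀ t, 0 ≤ v t := fun t => by positivity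
  have hv1 : ∀ t, v t ≤ 1 := by
    intro t
    rw [div_le_one hp, hpdef]
    exact_mod_cast numCores_le t n
  have hu1 : ∀ t, t ≤ n → u t ≤ Real.exp (-(ε * t)) := by
    intro t ht
    rw [div_le_iff₀ hp]
    have h1 : (firstCount n t : ℝ) ≤ numPartitions (n - t) := by
      exact_mod_cast card_first n t
    have h2 := hgood (n - t)
    rw [Nat.cast_sub ht] at h2
    have h3 : ε * ((n : ℝ) - t - n) = -(ε * t) := by ring
    rw [h3] at h2
    linarith
  have hv2 : ∀ t, 1 ≤ t → v t ≤ Real.exp (ε * t) / t := by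
    intro t ht
    have ht0 : (0:ℝ) < t := by exact_mod_cast ht
    rw [div_le_div_iff₀ hp ht0]
    have h1 : (t : ℝ) * numCores t n ≤ numPartitions (n + t) := by
      exact_mod_cast cores_le t n ht
    have h2 := hgood (n + t)
    push_cast at h2
    have h3 : ε * ((n : ℝ) + t - n) = ε * t := by ring
    rw [h3] at h2
    linarith
  have hz : zI n ≤ ∑ t ∈ range (n + 1), u t * v t := by
    unfold zI
    rw [div_le_iff₀ (by positivity)]
    have h1 : ((typeIZeros n).ncard : ℝ) ≤
        ∑ t ∈ range (n + 1), (numCores t n : ℝ) * firstCount n t := by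
      exact_mod_cast typeI_le n
    refine h1.trans (le_of_eq ?_)
    rw [sum_mul]
    apply sum_congr rfl
    intro t _
    simp only [u, v, ← hpdef]
    field_simp
  have husum : ∑ t ∈ range (n + 1), u t ≤ 1 := by
    rw [← sum_div, div_le_one hp]
    have h1 : ∑ t ∈ range (n + 1), firstCount n t ≤ numPartitions n := by
      rw [sum_firstCount]
      exact Set.ncard_le_ncard (fun _ hf => hf.1) (finite_partitions n)
    rw [hpdef]
    exact_mod_cast h1
  have hpt : ∀ t ∈ range (n + 1), u t * v t ≤ (if t < K then u t else 0) +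
      (Real.exp 1 / K + M / y) * u t + (if y < ε * t then Real.exp (-(ε * t)) else 0) := by
    intro t ht
    have htn : t ≤ n := by have := mem_range.mp ht; omega
    have hA : 0 ≤ (Real.exp 1 / K + M / y) * u t := by
      apply mul_nonneg _ (hu0 t)
      positivity
    have hB : (0:ℝ) ≤ if y < ε * t then Real.exp (-(ε * t)) else 0 := by
      split_ifs
      · exact (Real.exp_pos _).le
      · exact le_rfl
    have hC : (0:ℝ) ≤ if t < K then u t else 0 := by
      split_ifs
      · exact hu0 t
      · exact le_rfl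
    have hle : u t * v t ≤ u t := by
      calc u t * v t ≤ u t * 1 := mul_le_mul_of_nonneg_left (hv1 t) (hu0 t)
        _ = u t := mul_one _
    by_cases h1 : t < K
    · rw [if_pos h1]
      linarith
    · by_cases h2 : y < ε * t
      · rw [if_pos h2]
        have := hu1 t htn
        linarith
      · rw [if_neg h1, if_neg h2]
        push Not at h1 h2
        have ht1 : 1 ≤ t := by omega
        have ht0 : (0:ℝ) < t := by exact_mod_cast ht1
        have h3 : v t ≤ Real.exp 1 / K + M / y := by
          refine (hv2 t ht1).trans ?_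
          rcases le_total (ε * t) 1 with h4 | h4
          · have h5 : Real.exp (ε * t) / t ≤ Real.exp 1 / K := by
              apply div_le_div₀ (Real.exp_pos _).le (Real.exp_le_exp.mpr h4) hK0
              exact_mod_cast h1
            have h6 : 0 ≤ M / y := by positivity
            linarith
          · have h5 := exp_div_mono h4 h2
            have h6 : Real.exp (ε * t) / t = ε * (Real.exp (ε * t) / (ε * t)) := by
              field_simp
            have h7 : ε * (Real.exp y / y) = M / y := by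
              rw [hexpy]
              field_simp
            have h8 : 0 ≤ Real.exp 1 / K := by positivity
            rw [h6]
            have := mul_le_mul_of_nonneg_left h5 hε.le
            linarith
        have := mul_le_mul_of_nonneg_left h3 (hu0 t)
        linarith
  have hsum := hz.trans (sum_le_sum hpt)
  rw [sum_add_distrib, sum_add_distrib] at hsum
  have hS1 : (∑ t ∈ range (n + 1), if t < K then u t else 0) ≤ ((n : ℝ) + 1) ^ K / p := by
    have h1 : (∑ t ∈ range (n + 1), if t < K then u t else 0) ≤ ∑ t ∈ range K, u t := by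
      rw [← sum_filter]
      apply sum_le_sum_of_subset_of_nonneg
      · intro t ht
        rw [mem_filter] at ht
        exact mem_range.mpr ht.2
      · intro t _ _
        exact hu0 t
    refine h1.trans ?_
    rw [← sum_div, div_le_div_iff_of_pos_right hp]
    have h2 : ∑ t ∈ range K, firstCount n t ≤ (n + 1) ^ K := by
      rw [sum_firstCount]
      refine (Set.ncard_le_ncard (s := {f : ℕ → ℕ | IsPartition n f ∧ f 0 < K})
        (t := {f : ℕ → ℕ | IsPartition n f ∧ f 0 ≤ K}) (fun f hf => ⟨hf.1, hf.2.le⟩)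
        ((finite_partitions n).subset fun _ hf => hf.1)).trans (card_small n K)
    exact_mod_cast h2
  have hS2 : ∑ t ∈ range (n + 1), (Real.exp 1 / K + M / y) * u t ≤ Real.exp 1 / K + M / y := by
    rw [← mul_sum]
    have h1 : 0 ≤ Real.exp 1 / K + M / y := by positivity
    calc _ ≤ (Real.exp 1 / K + M / y) * 1 := mul_le_mul_of_nonneg_left husum h1
      _ = _ := mul_one _
  have hS3 : (∑ t ∈ range (n + 1), if y < ε * t then Real.exp (-(ε * t)) else 0) ≤ 2 / M := by
    have h1 := geom_tail ε y hε (n + 1)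
    have h2 : ε / 2 ≤ 1 - Real.exp (-ε) := by
      have h3 : Real.exp (-ε) * (1 + ε) ≤ 1 := by
        have h4 : Real.exp (-ε) * Real.exp ε = 1 := by
          rw [← Real.exp_add]; simp
        have h5 : 1 + ε ≤ Real.exp ε := by have := Real.add_one_le_exp ε; linarith
        calc Real.exp (-ε) * (1 + ε) ≤ Real.exp (-ε) * Real.exp ε :=
              mul_le_mul_of_nonneg_left h5 (Real.exp_pos _).le
          _ = 1 := h4
      nlinarith [Real.exp_pos (-ε)]
    have h3 : Real.exp (-y) = ε / M := by
      rw [Real.exp_neg, hexpy, inv_div]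
    have h4 : 0 ≤ Real.exp (-(max y (ε * ((n + 1 : ℕ) : ℝ)))) := (Real.exp_pos _).le
    have h5 : (∑ t ∈ range (n + 1), if y < ε * t then Real.exp (-(ε * t)) else 0) * (ε / 2) ≤
        ε / M := by
      refine (mul_le_mul_of_nonneg_left h2 ?_).trans ?_
      · apply sum_nonneg
        intro t _
        split_ifs
        · exact (Real.exp_pos _).le
        · exact le_rfl
      · linarith
    rw [← le_div_iff₀ (by positivity)] at h5
    have h6 : ε / M / (ε / 2) = 2 / M := by field_simp
    linarith
  linarith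

/-- `liminf z_I(S_n) = 0`. -/
theorem liminf_zero (c : ℝ) (hc : 0 < c) (N : ℕ) : ∃ n : ℕ, N ≤ n ∧ zI n < c := by
  obtain ⟨K, hK1, hK⟩ : ∃ K : ℕ, 1 ≤ K ∧ Real.exp 1 / K < c / 5 := by
    obtain ⟨K, hK⟩ := exists_nat_gt (Real.exp 1 / (c / 5))
    have hK0 : (0:ℝ) < K := lt_of_le_of_lt (by positivity) hK
    refine ⟨K, by exact_mod_cast hK0, ?_⟩
    rw [div_lt_iff₀ hK0]
    rw [div_lt_iff₀ (by positivity)] at hK
    linarith
  obtain ⟨M, hMdef⟩ : ∃ M : ℝ, M = 10 / c := ⟨_, rfl⟩
  have hM : 0 < M := by rw [hMdef]; positivity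
  have h2M : 2 / M = c / 5 := by rw [hMdef]; field_simp; norm_num
  obtain ⟨N₁, hN₁⟩ := eventually_atTop.mp ((poly_small K).eventually_lt_const
    (show (0:ℝ) < c / 5 by positivity))
  obtain ⟨ε₀, hε₀, hgood⟩ := exists_good (max N N₁)
  -- choose ε small
  have hdiv : Tendsto (fun ε : ℝ => M / ε) (𝓝[>] 0) atTop := by
    have h0 : Tendsto (fun ε : ℝ => M * ε⁻¹) (𝓝[>] 0) atTop :=
      tendsto_inv_nhdsGT_zero.const_mul_atTop hM
    exact h0
  have hlog : Tendsto (fun ε : ℝ => Real.log (M / ε)) (𝓝[>] 0) atTop :=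
    Real.tendsto_log_atTop.comp hdiv
  have hev : ∀ᶠ ε : ℝ in 𝓝[>] 0, max 1 (M / (c / 5)) < Real.log (M / ε) ∧ ε < ε₀ ∧ ε ≤ 1 := by
    refine (hlog.eventually_gt_atTop _).and ?_
    have h1 : Set.Ioo (0:ℝ) (min ε₀ 1) ∈ 𝓝[>] (0:ℝ) := Ioo_mem_nhdsGT (by positivity)
    filter_upwards [h1] with ε hε
    exact ⟨lt_of_lt_of_le hε.2 (min_le_left _ _), (hε.2.trans_le (min_le_right _ _)).le⟩
  obtain ⟨ε, ⟨h1, h2, h3⟩, h4⟩ := (hev.and self_mem_nhdsWithin).exists
  have h4 : 0 < ε := h4
  obtain ⟨n, hn, hn'⟩ := hgood ε h4 h2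
  refine ⟨n, (le_max_left _ _).trans hn, ?_⟩
  have h5 : 1 ≤ Real.log (M / ε) := ((le_max_left _ _).trans_lt h1).le
  have h6 := zI_le n K hK1 ε M h4 h3 hM h5 hn'
  have h7 : M / Real.log (M / ε) < c / 5 := by
    have h8 : M / (c / 5) < Real.log (M / ε) := (le_max_right _ _).trans_lt h1
    rw [div_lt_iff₀ (by positivity)] at h8
    rw [div_lt_iff₀ (by linarith)]
    linarith
  have h8 := hN₁ n ((le_max_right _ _).trans hn)
  linarith

end Pool.Agent.H581R3.Core
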