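import Mathlib

/-!
Partitions as weakly decreasing sequences, hook lengths, cores.
-/

set_option autoImplicit false

namespace Pool.Agent.H581R3.Core

open Finset

/-- `f` is a partition of `n`: a weakly decreasing sequence `f 0 ≥ f 1 ≥ ...` of natural numbers
(the parts, padded by zeros) with sum `n`. A partition of `n` has at most `n` parts. -/
def IsPartition (n : ℕ) (f : ℕ → ℕ) : Prop :=
  Antitone f ∧ (∀ i, n ≤ i → f i = 0) ∧ ∑ i ∈ range n, f i = n

/-- The hook length of the cell in row `i` (rows are numbered from `0`) and column `j` (columns are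
numbered from `1`): `f i - j` plus the number of rows `s ≥ i` with `f s ≥ j`. -/
noncomputable def hook (f : ℕ → ℕ) (i j : ℕ) : ℕ := f i - j + {s : ℕ | i ≤ s ∧ j ≤ f s}.ncard

/-- `f` is a `t`-core: no hook length is divisible by `t`. -/
def IsCore (t : ℕ) (f : ℕ → ℕ) : Prop := ∀ i j, 1 ≤ j → j ≤ f i → ¬ t ∣ hook f i j

/-- The number of partitions of `n`. -/
noncomputable def numPartitions (n : ℕ) : ℕ := {f : ℕ → ℕ | IsPartition n f}.ncard

/-- The type I zeros: pairs of partitions `(lam, mu)` of `n` such that `lam` is a core for the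
largest part of `mu`. -/
def typeIZeros (n : ℕ) : Set ((ℕ → ℕ) × (ℕ → ℕ)) :=
  {x | IsPartition n x.1 ∧ IsPartition n x.2 ∧ IsCore (x.2 0) x.1}

/-- The density of type I zeros. -/
noncomputable def zI (n : ℕ) : ℝ := ((typeIZeros n).ncard : ℝ) / (numPartitions n : ℝ) ^ 2

/-- The number of partitions of `n` which are `t`-cores. -/
noncomputable def numCores (t n : ℕ) : ℕ := {f : ℕ → ℕ | IsPartition n f ∧ IsCore t f}.ncard

section basic

variable {n : ℕ} {f : ℕ → ℕ}

theorem IsPartition.sum_range (h : IsPartition n f) {N : ℕ} (hN : n ≤ N) :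
    ∑ i ∈ range N, f i = n := by
  rw [← h.2.2]
  symm
  rw [h.2.2]
  conv_lhs => rw [← h.2.2]
  apply sum_subset (range_subset_range.mpr hN)
  intro i _ hi
  exact h.2.1 i (by simpa using hi)

/-- A decreasing sequence with sum `m` over a long range is a partition of `m`. -/
theorem isPartition_of_sum {m N : ℕ} {g : ℕ → ℕ} (hg : Antitone g) (hN : ∀ i, N ≤ i → g i = 0)
    (hs : ∑ i ∈ range N, g i = m) : IsPartition m g := by
  have hzero : ∀ i, m ≤ i → g i = 0 := by
    intro i hi
    by_contra hne
    have hiN : i < N := by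
      by_contra h
      exact hne (hN i (by omega))
    have h1 : ∑ j ∈ range (i + 1), 1 ≤ ∑ j ∈ range (i + 1), g j := by
      apply sum_le_sum
      intro j hj
      have := hg (show j ≤ i by have := mem_range.mp hj; omega)
      omega
    have h2 : ∑ j ∈ range (i + 1), g j ≤ ∑ j ∈ range N, g j :=
      sum_le_sum_of_subset (range_subset_range.mpr hiN)
    simp at h1
    omega
  refine ⟨hg, hzero, ?_⟩
  rcases le_total m N with h | h
  · rw [← hs]
    rw [hs]
    conv_rhs => rw [← hs]
    apply sum_subset (range_subset_range.mpr h)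
    intro i _ hi
    exact hzero i (by simpa using hi)
  · conv_rhs => rw [← hs]
    symm
    apply sum_subset (range_subset_range.mpr h)
    intro i _ hi
    exact hN i (by simpa using hi)

theorem IsPartition.le (h : IsPartition n f) (i : ℕ) : f i ≤ n := by
  by_cases hi : i < n
  · calc f i ≤ ∑ j ∈ range n, f j := single_le_sum (fun _ _ => Nat.zero_le _) (mem_range.mpr hi)
      _ = n := h.2.2
  · rw [h.2.1 i (by omega)]; exact Nat.zero_le _

/-- Column lengths. -/
def col (n : ℕ) (f : ℕ → ℕ) (j : ℕ) : ℕ := ((range n).filter fun i => j < f i).card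

theorem IsPartition.lt_col_iff (h : IsPartition n f) (i j : ℕ) : i < col n f j ↔ j < f i := by
  have hcol : (range n).filter (fun i => j < f i) = range (col n f j) := by
    have hdown : ∀ a b, a ≤ b → b ∈ (range n).filter (fun i => j < f i) →
        a ∈ (range n).filter (fun i => j < f i) := by
      intro a b hab hb
      rw [mem_filter, mem_range] at hb ⊢
      exact ⟨by omega, lt_of_lt_of_le hb.2 (h.1 hab)⟩
    -- a down-closed finite set is an initial segment
    ext a
    constructor
    · intro ha
      rw [mem_range]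
      have h1 : range (a + 1) ⊆ (range n).filter (fun i => j < f i) := by
        intro b hb
        exact hdown b a (by have := mem_range.mp hb; omega) ha
      have h2 := card_le_card h1
      rw [card_range] at h2
      exact h2
    · intro ha
      by_contra hna
      rw [mem_range] at ha
      have h1 : (range n).filter (fun i => j < f i) ⊆ range a := by
        intro b hb
        rw [mem_range]
        by_contra hab
        exact hna (hdown a b (by omega) hb)
      have h2 := card_le_card h1
      rw [card_range] at h2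
      unfold col at ha
      omega
  constructor
  · intro hi
    have : i ∈ range (col n f j) := mem_range.mpr hi
    rw [← hcol, mem_filter] at this
    exact this.2
  · intro hi
    have hin : i < n := by
      by_contra hn
      rw [h.2.1 i (by omega)] at hi
      omega
    have : i ∈ (range n).filter (fun i => j < f i) := mem_filter.mpr ⟨mem_range.mpr hin, hi⟩
    rw [hcol, mem_range] at this
    exact this

theorem col_le (j : ℕ) : col n f j ≤ n := by
  unfold col
  calc _ ≤ (range n).card := card_filter_le _ _
    _ = n := card_range n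

/-- A partition is determined by its first `m` rows and its first `k` columns, if row `m` has
length at most `k`. -/
theorem card_le_of_rows_cols (n m k : ℕ) (s : Set (ℕ → ℕ))
    (hs : ∀ f ∈ s, IsPartition n f ∧ f m ≤ k) :
    s.Finite ∧ s.ncard ≤ (n + 1) ^ m * (n + 1) ^ k := by
  let F : (ℕ → ℕ) → (Fin m → Fin (n + 1)) × (Fin k → Fin (n + 1)) := fun f =>
    (fun i => Fin.ofNat (n + 1) (f i), fun j => Fin.ofNat (n + 1) (col n f j))
  have hF : Set.InjOn F s := by
    intro f hf g hg hfg
    obtain ⟨hf1, hf2⟩ := hs f hf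
    obtain ⟨hg1, hg2⟩ := hs g hg
    have h1 : ∀ i < m, f i = g i := by
      intro i hi
      have := congrFun (congrArg Prod.fst hfg) ⟨i, hi⟩
      have := congrArg Fin.val this
      simp only [F, Fin.ofNat] at this
      rwa [Nat.mod_eq_of_lt (Nat.lt_succ_of_le (hf1.le i)),
        Nat.mod_eq_of_lt (Nat.lt_succ_of_le (hg1.le i))] at this
    have h2 : ∀ j < k, col n f j = col n g j := by
      intro j hj
      have := congrFun (congrArg Prod.snd hfg) ⟨j, hj⟩
      have := congrArg Fin.val this
      simp only [F, Fin.ofNat] at this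
      rwa [Nat.mod_eq_of_lt (Nat.lt_succ_of_le (col_le j)),
        Nat.mod_eq_of_lt (Nat.lt_succ_of_le (col_le j))] at this
    funext i
    by_cases hi : i < m
    · exact h1 i hi
    · have hfi : f i ≤ k := (hf1.1 (by omega)).trans hf2
      have hgi : g i ≤ k := (hg1.1 (by omega)).trans hg2
      have h3 : ∀ j, j < k → (j < f i ↔ j < g i) := by
        intro j hj
        rw [← hf1.lt_col_iff, ← hg1.lt_col_iff, h2 j hj]
      rcases lt_trichotomy (f i) (g i) with h | h | h
      · have := (h3 (f i) (by omega)).mpr h
        omega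
      · exact h
      · have := (h3 (g i) (by omega)).mp h
        omega
  have hfin : s.Finite := Set.Finite.of_injOn (fun _ _ => Set.mem_univ _) hF Set.finite_univ
  refine ⟨hfin, ?_⟩
  calc s.ncard ≤ (Set.univ : Set ((Fin m → Fin (n + 1)) × (Fin k → Fin (n + 1)))).ncard :=
        Set.ncard_le_ncard_of_injOn F (fun _ _ => Set.mem_univ _) hF Set.finite_univ
    _ = (n + 1) ^ m * (n + 1) ^ k := by
        rw [Set.ncard_univ, Nat.card_eq_fintype_card]
        simp

theorem IsPartition.sqrt (h : IsPartition n f) : f (Nat.sqrt n) ≤ Nat.sqrt n := by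
  by_contra hlt
  push Not at hlt
  have h1 : ∑ i ∈ range (Nat.sqrt n + 1), (Nat.sqrt n + 1) ≤ ∑ i ∈ range (Nat.sqrt n + 1), f i := by
    apply sum_le_sum
    intro i hi
    have := h.1 (show i ≤ Nat.sqrt n by have := mem_range.mp hi; omega)
    omega
  have h2 : ∑ i ∈ range (Nat.sqrt n + 1), f i ≤ ∑ i ∈ range (n + 1), f i :=
    sum_le_sum_of_subset (range_subset_range.mpr (by have := Nat.sqrt_le_self n; omega))
  rw [h.sum_range (Nat.le_succ n)] at h2
  rw [sum_const, card_range, smul_eq_mul] at h1
  have h3 := Nat.lt_succ_sqrt n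
  simp only [Nat.succ_eq_add_one] at h3
  omega

theorem finite_partitions (n : ℕ) : {f : ℕ → ℕ | IsPartition n f}.Finite :=
  (card_le_of_rows_cols n (Nat.sqrt n) (Nat.sqrt n) _ fun _ hf => ⟨hf, IsPartition.sqrt hf⟩).1

theorem numPartitions_le (n : ℕ) : numPartitions n ≤ (n + 1) ^ (2 * Nat.sqrt n) := by
  have := (card_le_of_rows_cols n (Nat.sqrt n) (Nat.sqrt n) {f : ℕ → ℕ | IsPartition n f}
    fun _ hf => ⟨hf, IsPartition.sqrt hf⟩).2
  rw [← pow_add, ← two_mul] at this
  exact this

theorem card_small (n K : ℕ) : {f : ℕ → ℕ | IsPartition n f ∧ f 0 ≤ K}.ncard ≤ (n + 1) ^ K := by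
  have := (card_le_of_rows_cols n 0 K {f : ℕ → ℕ | IsPartition n f ∧ f 0 ≤ K}
    fun _ hf => hf).2
  simpa using this

/-- Removing the first part. -/
theorem IsPartition.shift (h : IsPartition n f) : IsPartition (n - f 0) fun i => f (i + 1) := by
  have h1 : ∑ i ∈ range n, f (i + 1) = n - f 0 := by
    have h2 := h.sum_range (Nat.le_succ n)
    rw [Nat.succ_eq_add_one, sum_range_succ'] at h2
    omega
  exact isPartition_of_sum (fun a b hab => h.1 (by omega)) (fun i hi => h.2.1 _ (by omega)) h1

theorem card_first (n t : ℕ) :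
    {f : ℕ → ℕ | IsPartition n f ∧ f 0 = t}.ncard ≤ numPartitions (n - t) := by
  refine Set.ncard_le_ncard_of_injOn (fun f i => f (i + 1)) ?_ ?_ (finite_partitions _)
  · rintro f ⟨hf, rfl⟩
    exact hf.shift
  · rintro f ⟨hf, hf0⟩ g ⟨hg, hg0⟩ hfg
    funext i
    cases i with
    | zero => rw [hf0, hg0]
    | succ i => exact congrFun hfg i

theorem numPartitions_pos (n : ℕ) : 0 < numPartitions n := by
  unfold numPartitions
  rw [Set.ncard_pos (finite_partitions n)]
  refine ⟨fun i => if i = 0 then n else 0, isPartition_of_sum (N := n + 1) ?_ ?_ ?_⟩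
  · intro a b hab
    by_cases hb : b = 0
    · subst hb
      have : a = 0 := by omega
      simp [this]
    · simp [hb]
  · intro i hi
    have : i ≠ 0 := by omega
    simp [this]
  · simp

end basic

end Pool.Agent.H581R3.Core
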