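import Pool.Agent.H581R3.Core.Beads

/-!
Growth of the partition function; good values of `n`.
-/

set_option autoImplicit false

namespace Pool.Agent.H581R3.Core

open Finset Filter Topology

/-- Subsets give partitions. -/
theorem two_pow_le (n m : ℕ) (h : m ^ 2 + m ≤ n) : 2 ^ m ≤ numPartitions n := by
  classical
  let c : Finset ℕ → ℕ → ℕ := fun S i => (S.filter fun s => i ≤ s).card
  let F : Finset ℕ → ℕ → ℕ := fun S i => if i = 0 then n - ∑ k ∈ range m, c S (k + 1) else c S i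
  have hcle : ∀ S ∈ (Icc 1 m).powerset, ∀ i, c S i ≤ m := by
    intro S hS i
    calc c S i ≤ S.card := card_filter_le _ _
      _ ≤ (Icc 1 m).card := card_le_card (mem_powerset.mp hS)
      _ = m := by simp
  have hcsum : ∀ S ∈ (Icc 1 m).powerset, ∑ k ∈ range m, c S (k + 1) ≤ m ^ 2 := by
    intro S hS
    calc ∑ k ∈ range m, c S (k + 1) ≤ ∑ k ∈ range m, m := sum_le_sum fun k _ => hcle S hS _
      _ = m ^ 2 := by rw [sum_const, card_range, smul_eq_mul, sq]
  have hcanti : ∀ S, Antitone (c S) := by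
    intro S a b hab
    apply card_le_card
    intro s hs
    rw [mem_filter] at hs ⊢
    exact ⟨hs.1, hab.trans hs.2⟩
  have hF : ∀ S ∈ (Icc 1 m).powerset, IsPartition n (F S) := by
    intro S hS
    refine isPartition_of_sum (N := m + 1) ?_ ?_ ?_
    · intro a b hab
      by_cases ha : a = 0
      · by_cases hb : b = 0
        · rw [ha, hb]
        · simp only [F, ha, hb, if_true, if_false]
          have h1 := hcle S hS b
          have h2 := hcsum S hS
          omega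
      · have hb : b ≠ 0 := by omega
        simp only [F, ha, hb, if_false]
        exact hcanti S hab
    · intro i hi
      have hi0 : i ≠ 0 := by omega
      simp only [F, hi0, if_false, c]
      rw [card_eq_zero, filter_eq_empty_iff]
      intro s hs
      have := mem_Icc.mp (mem_powerset.mp hS hs)
      omega
    · rw [sum_range_succ']
      have h2 := hcsum S hS
      have h3 : ∑ k ∈ range m, F S (k + 1) = ∑ k ∈ range m, c S (k + 1) := by
        apply sum_congr rfl
        intro k _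
        simp [F]
      rw [h3]
      simp only [F, if_true]
      omega
  have hinj : Set.InjOn F ((Icc 1 m).powerset : Set (Finset ℕ)) := by
    have hmem : ∀ S ∈ (Icc 1 m).powerset, ∀ s, s ∈ S ↔ 1 ≤ s ∧ F S (s + 1) < F S s := by
      intro S hS s
      constructor
      · intro hs
        have h1 := mem_Icc.mp (mem_powerset.mp hS hs)
        refine ⟨h1.1, ?_⟩
        have h0 : s ≠ 0 := by omega
        simp only [F, h0, if_false, Nat.succ_ne_zero, Nat.add_eq_zero_iff, one_ne_zero, and_false]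
        apply card_lt_card
        refine ⟨fun x hx => ?_, fun hsub => ?_⟩
        · rw [mem_filter] at hx ⊢
          exact ⟨hx.1, by omega⟩
        · have h3 : s ∈ S.filter fun x => s + 1 ≤ x := hsub (mem_filter.mpr ⟨hs, le_rfl⟩)
          have := (mem_filter.mp h3).2
          omega
      · rintro ⟨h1, h2⟩
        by_contra hs
        have h0 : s ≠ 0 := by omega
        simp only [F, h0, if_false, Nat.add_eq_zero_iff, one_ne_zero, and_false] at h2
        have h3 : c S (s + 1) = c S s := by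
          simp only [c]
          congr 1
          ext x
          simp only [mem_filter, and_congr_right_iff]
          intro hx
          constructor
          · intro h; omega
          · intro h
            rcases Nat.eq_or_lt_of_le h with h4 | h4
            · exact absurd (h4 ▸ hx) hs
            · exact h4
        omega
    intro S hS T hT hST
    ext s
    rw [hmem S (mem_coe.mp hS), hmem T (mem_coe.mp hT), hST]
  have h1 := Set.ncard_le_ncard_of_injOn (s := ((Icc 1 m).powerset : Set (Finset ℕ)))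
    (t := {f : ℕ → ℕ | IsPartition n f}) F (fun S hS => hF S (mem_coe.mp hS)) hinj
    (finite_partitions n)
  rw [Set.ncard_coe_finset, card_powerset, Nat.card_Icc, Nat.add_sub_cancel] at h1
  exact h1

theorem tendsto_sqrt : Tendsto Nat.sqrt atTop atTop :=
  tendsto_atTop_atTop_of_monotone (fun _ _ h => Nat.sqrt_le_sqrt h)
    fun b => ⟨b * b, by rw [Nat.sqrt_eq]⟩

theorem two_pow_sqrt_le (n : ℕ) : 2 ^ (Nat.sqrt n - 1) ≤ numPartitions n := by
  apply two_pow_le
  have h := Nat.sqrt_le' n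
  rcases Nat.eq_zero_or_pos (Nat.sqrt n) with h0 | h0
  · rw [h0]; simp
  · obtain ⟨s, hs⟩ : ∃ s, Nat.sqrt n = s + 1 := ⟨Nat.sqrt n - 1, by omega⟩
    rw [hs] at h ⊢
    simp only [Nat.add_sub_cancel]
    nlinarith

theorem tendsto_numPartitions : Tendsto (fun n => (numPartitions n : ℝ)) atTop atTop := by
  have h1 : Tendsto (fun n : ℕ => ((2:ℝ) ^ (Nat.sqrt n - 1))) atTop atTop :=
    (tendsto_pow_atTop_atTop_of_one_lt (by norm_num : (1:ℝ) < 2)).comp
      ((tendsto_sub_atTop_nhds_one_aux).comp tendsto_sqrt)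
  exact tendsto_atTop_mono (fun n => by exact_mod_cast two_pow_sqrt_le n) h1
where
  tendsto_sub_atTop_nhds_one_aux : Tendsto (fun n : ℕ => n - 1) atTop atTop :=
    tendsto_sub_atTop_nat 1

theorem poly_small (K : ℕ) :
    Tendsto (fun n : ℕ => ((n : ℝ) + 1) ^ K / (numPartitions n : ℝ)) atTop (𝓝 0) := by
  have h1 : Tendsto (fun s : ℕ => 4 * ((((s + 1 : ℕ) : ℝ)) ^ (2 * K) / (2:ℝ) ^ (s + 1))) atTop
      (𝓝 0) := by
    have := ((tendsto_pow_const_div_const_pow_of_one_lt (2 * K)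
      (by norm_num : (1:ℝ) < 2)).comp (tendsto_add_atTop_nat 1)).const_mul 4
    simpa using this
  refine squeeze_zero (fun n => by positivity) (fun n => ?_) (h1.comp tendsto_sqrt)
  simp only [Function.comp_apply]
  have h2 : ((n : ℝ) + 1) ≤ (((Nat.sqrt n + 1 : ℕ) : ℝ)) ^ 2 := by
    have := Nat.succ_le_succ_sqrt' n
    have h3 : n + 1 ≤ (Nat.sqrt n + 1) ^ 2 := this
    exact_mod_cast h3
  have h3 : ((n : ℝ) + 1) ^ K ≤ (((Nat.sqrt n + 1 : ℕ) : ℝ)) ^ (2 * K) := by
    rw [pow_mul]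
    exact pow_le_pow_left₀ (by positivity) h2 K
  have h4 : (2:ℝ) ^ (Nat.sqrt n + 1) ≤ 4 * (numPartitions n : ℝ) := by
    have h5 : (2:ℝ) ^ (Nat.sqrt n - 1) ≤ (numPartitions n : ℝ) := by
      exact_mod_cast two_pow_sqrt_le n
    have h6 : (2:ℝ) ^ (Nat.sqrt n + 1) ≤ 4 * 2 ^ (Nat.sqrt n - 1) := by
      have : Nat.sqrt n + 1 ≤ (Nat.sqrt n - 1) + 2 := by omega
      calc (2:ℝ) ^ (Nat.sqrt n + 1) ≤ 2 ^ ((Nat.sqrt n - 1) + 2) :=
            pow_le_pow_right₀ (by norm_num) this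
        _ = 4 * 2 ^ (Nat.sqrt n - 1) := by rw [pow_add]; ring
    linarith
  have hp : (0:ℝ) < numPartitions n := by exact_mod_cast numPartitions_pos n
  rw [div_le_iff₀ hp]
  have h7 : 4 * ((((Nat.sqrt n + 1 : ℕ) : ℝ)) ^ (2 * K) / (2:ℝ) ^ (Nat.sqrt n + 1)) *
      (numPartitions n : ℝ) = (((Nat.sqrt n + 1 : ℕ) : ℝ)) ^ (2 * K) *
      ((4 * (numPartitions n : ℝ)) / (2:ℝ) ^ (Nat.sqrt n + 1)) := by ring
  rw [h7]
  have h8 : 1 ≤ (4 * (numPartitions n : ℝ)) / (2:ℝ) ^ (Nat.sqrt n + 1) := by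
    rw [le_div_iff₀ (by positivity)]
    linarith
  calc ((n : ℝ) + 1) ^ K ≤ (((Nat.sqrt n + 1 : ℕ) : ℝ)) ^ (2 * K) := h3
    _ = (((Nat.sqrt n + 1 : ℕ) : ℝ)) ^ (2 * K) * 1 := by ring
    _ ≤ _ := by
        apply mul_le_mul_of_nonneg_left h8
        positivity

/-- `log p(n) ≤ 8 (n+1)^(3/4)`. -/
theorem log_le (n : ℕ) : Real.log (numPartitions n) ≤ 8 * ((n : ℝ) + 1) ^ (3 / 4 : ℝ) := by
  have hp : (0:ℝ) < numPartitions n := by exact_mod_cast numPartitions_pos n
  have h1 : (numPartitions n : ℝ) ≤ ((n : ℝ) + 1) ^ (2 * Nat.sqrt n) := by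
    exact_mod_cast numPartitions_le n
  have hn : (0:ℝ) < (n : ℝ) + 1 := by positivity
  have h2 : Real.log (numPartitions n) ≤ (2 * Nat.sqrt n : ℕ) * Real.log ((n : ℝ) + 1) := by
    rw [← Real.log_pow]
    exact Real.log_le_log hp h1
  have h3 : Real.log ((n : ℝ) + 1) ≤ 4 * ((n : ℝ) + 1) ^ (1 / 4 : ℝ) := by
    have h4 : Real.log (((n : ℝ) + 1) ^ (1 / 4 : ℝ)) ≤ ((n : ℝ) + 1) ^ (1 / 4 : ℝ) - 1 :=
      Real.log_le_sub_one_of_pos (by positivity)
    rw [Real.log_rpow hn] at h4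
    linarith
  have h5 : ((2 * Nat.sqrt n : ℕ) : ℝ) ≤ 2 * ((n : ℝ) + 1) ^ (1 / 2 : ℝ) := by
    rw [← Real.sqrt_eq_rpow]
    push_cast
    have h6 : (Nat.sqrt n : ℝ) ≤ Real.sqrt ((n : ℝ) + 1) := by
      apply Real.le_sqrt_of_sq_le
      have := Nat.sqrt_le' n
      have h7 : ((Nat.sqrt n : ℝ)) ^ 2 ≤ n := by exact_mod_cast this
      linarith
    linarith
  calc Real.log (numPartitions n) ≤ (2 * Nat.sqrt n : ℕ) * Real.log ((n : ℝ) + 1) := h2
    _ ≤ (2 * ((n : ℝ) + 1) ^ (1 / 2 : ℝ)) * (4 * ((n : ℝ) + 1) ^ (1 / 4 : ℝ)) := by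
        apply mul_le_mul h5 h3 (Real.log_nonneg (by linarith)) (by positivity)
    _ = 8 * ((n : ℝ) + 1) ^ (3 / 4 : ℝ) := by
        rw [show (3 / 4 : ℝ) = 1 / 2 + 1 / 4 by norm_num, Real.rpow_add hn]
        ring

theorem tendsto_log_sub (ε : ℝ) (hε : 0 < ε) :
    Tendsto (fun n : ℕ => Real.log (numPartitions n) - ε * n) atTop atBot := by
  have h1 : Tendsto (fun n : ℕ => (((n : ℝ) + 1) ^ (3 / 4 : ℝ)) *
      (8 - ε * ((n : ℝ) + 1) ^ (1 / 4 : ℝ)) + ε) atTop atBot := by
    apply tendsto_atBot_add_const_right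
    have hn : Tendsto (fun n : ℕ => (n : ℝ) + 1) atTop atTop :=
      tendsto_atTop_add_const_right _ _ tendsto_natCast_atTop_atTop
    have h2 : Tendsto (fun n : ℕ => ((n : ℝ) + 1) ^ (3 / 4 : ℝ)) atTop atTop :=
      (tendsto_rpow_atTop (by norm_num)).comp hn
    have h3 : Tendsto (fun n : ℕ => ((n : ℝ) + 1) ^ (1 / 4 : ℝ)) atTop atTop :=
      (tendsto_rpow_atTop (by norm_num)).comp hn
    apply Tendsto.atTop_mul_atBot₀ h2
    have h4 : Tendsto (fun n : ℕ => 8 + -(ε * ((n : ℝ) + 1) ^ (1 / 4 : ℝ))) atTop atBot := by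
      apply tendsto_atBot_add_const_left
      exact tendsto_neg_atTop_atBot.comp (h3.const_mul_atTop hε)
    simpa [sub_eq_add_neg] using h4
  refine tendsto_atBot_mono (fun n => ?_) h1
  have hn : (0:ℝ) < (n : ℝ) + 1 := by positivity
  have h2 : ((n : ℝ) + 1) = ((n : ℝ) + 1) ^ (3 / 4 : ℝ) * ((n : ℝ) + 1) ^ (1 / 4 : ℝ) := by
    rw [← Real.rpow_add hn]
    norm_num
  have h3 := log_le n
  have h4 : ((n : ℝ) + 1) ^ (3 / 4 : ℝ) * (8 - ε * ((n : ℝ) + 1) ^ (1 / 4 : ℝ)) + ε =
      8 * ((n : ℝ) + 1) ^ (3 / 4 : ℝ) -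
        ε * (((n : ℝ) + 1) ^ (3 / 4 : ℝ) * ((n : ℝ) + 1) ^ (1 / 4 : ℝ)) + ε := by ring
  rw [h4, ← h2]
  linarith

/-- Good values of `n`: `p(k) ≤ p(n) exp(ε (k - n))` for all `k`. -/
theorem exists_good (N : ℕ) : ∃ ε₀ : ℝ, 0 < ε₀ ∧ ∀ ε : ℝ, 0 < ε → ε < ε₀ → ∃ n : ℕ, N ≤ n ∧
    ∀ k : ℕ, (numPartitions k : ℝ) ≤ numPartitions n * Real.exp (ε * ((k : ℝ) - n)) := by
  obtain ⟨k, hk⟩ : ∃ k : ℕ, ∀ j < N, Real.log (numPartitions j) + 1 <
      Real.log (numPartitions k) := by
    have h1 : Tendsto (fun n => Real.log (numPartitions n : ℝ)) atTop atTop :=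
      Real.tendsto_log_atTop.comp tendsto_numPartitions
    have h2 : ∀ᶠ n in atTop, ∀ j ∈ range N, Real.log (numPartitions j) + 1 <
        Real.log (numPartitions n : ℝ) := by
      rw [eventually_all_finset]
      intro j _
      exact h1.eventually_gt_atTop _
    obtain ⟨k, hk⟩ := h2.exists
    exact ⟨k, fun j hj => hk j (mem_range.mpr hj)⟩
  refine ⟨1 / (k + 1), by positivity, fun ε hε hε' => ?_⟩
  have h1 : Tendsto (fun n : ℕ => Real.log (numPartitions n) - ε * n) cofinite atBot := by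
    rw [Nat.cofinite_eq_atTop]
    exact tendsto_log_sub ε hε
  obtain ⟨n, hn⟩ := h1.exists_forall_ge
  refine ⟨n, ?_, fun j => ?_⟩
  · by_contra hlt
    push Not at hlt
    have h2 := hk n hlt
    have h3 := hn k
    have h4 : ε * k ≤ 1 := by
      have : ε * (k + 1) < 1 := by
        rwa [lt_div_iff₀ (by positivity)] at hε'
      nlinarith
    have h5 : 0 ≤ ε * n := by positivity
    linarith
  · have h2 := hn j
    have hp : (0:ℝ) < numPartitions n := by exact_mod_cast numPartitions_pos n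
    have hq : (0:ℝ) < numPartitions j := by exact_mod_cast numPartitions_pos j
    rw [← Real.exp_log hp, ← Real.exp_add, ← Real.exp_log hq]
    apply Real.exp_le_exp.mpr
    linarith

end Pool.Agent.H581R3.Core
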